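import Pool.Agent.helper38.TA.SpecK

/-!
# Project TA, row VCL: the Mellin transform of `V_t` and the line formula of the negative part
-/

set_option autoImplicit false

open Complex MeasureTheory Set

namespace Pool.Agent.TA

open Pool.Agent.BA (Par GG kl kf vf fV Bw Den PP wt lam gpf rgz)

theorem VCL_cpow (x u : ℝ) (hx : 0 < x) (s : ℂ) :
    ((x * Real.exp u : ℝ) : ℂ) ^ s = (x : ℂ) ^ s * Complex.exp ((u : ℂ) * s) := by
  rw [Complex.ofReal_mul, Complex.mul_cpow_ofReal_nonneg hx.le (Real.exp_pos u).le,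
    Complex.cpow_def_of_ne_zero (x := ((Real.exp u : ℝ) : ℂ))
      (by exact_mod_cast (Real.exp_pos u).ne'), ← Complex.ofReal_log (Real.exp_pos u).le,
    Real.log_exp]

theorem VCL_hi (bGI : Pool.Agent.BA.GI_stmt) (n j : ℕ) (μ : Fin n → ℝ) (hμ : Par 1 μ) (x σ : ℝ)
    (hx : 0 < x) (hσ : 0 < σ) : Integrable (fun τ : ℝ => (-((σ : ℂ) + τ * I)) ^ j *
      GG μ ((σ : ℂ) + τ * I) * (x : ℂ) ^ (-((σ : ℂ) + τ * I))) := by
  have h1 := bGI n j μ σ hμ hσ
  refine h1.mul_bdd (c := x ^ (-σ)) ?_ (Filter.Eventually.of_forall fun τ => ?_)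
  · refine Continuous.aestronglyMeasurable ?_
    refine Continuous.const_cpow (by fun_prop) (Or.inl ?_)
    exact_mod_cast hx.ne'
  · rw [Complex.norm_cpow_eq_rpow_re_of_pos hx]
    simp

theorem VCL_first (bKD : Pool.Agent.BA.KD_stmt) (bGI : Pool.Agent.BA.GI_stmt) (n j : ℕ)
    (μ : Fin n → ℝ) (hμ : Par 1 μ) (t x σ : ℝ) (hx : 0 < x) (hσ : 0 < σ) (hσ2 : σ < 1 / 2) :
    ∫ u in Ioi (0 : ℝ), Complex.exp (-(((t * u : ℝ) : ℂ) * I)) *
      ((Real.exp (-u / 2) * kf μ j (x * Real.exp (-u)) : ℝ) : ℂ) =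
    -(((1 / (2 * Real.pi) : ℝ) : ℂ) * ∫ τ : ℝ, (-((σ : ℂ) + τ * I)) ^ j * GG μ ((σ : ℂ) + τ * I) *
      (x : ℂ) ^ (-((σ : ℂ) + τ * I)) * (((σ : ℂ) + τ * I) - ((1 / 2 : ℂ) + t * I))⁻¹) := by
  obtain ⟨h, hh⟩ : ∃ h : ℝ → ℂ, h = fun τ : ℝ => (-((σ : ℂ) + τ * I)) ^ j *
      GG μ ((σ : ℂ) + τ * I) * (x : ℂ) ^ (-((σ : ℂ) + τ * I)) := ⟨_, rfl⟩
  have hint : Integrable h := by rw [hh]; exact VCL_hi bGI n j μ hμ x σ hx hσ
  have hre : ∀ τ : ℝ, (((σ : ℂ) + τ * I) - ((1 / 2 : ℂ) + t * I)).re = σ - 1 / 2 := by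
    intro τ; simp
  have key : ∀ u : ℝ, Complex.exp (-(((t * u : ℝ) : ℂ) * I)) *
      ((Real.exp (-u / 2) * kf μ j (x * Real.exp (-u)) : ℝ) : ℂ) =
      ((1 / (2 * Real.pi) : ℝ) : ℂ) * ∫ τ : ℝ, h τ *
        Complex.exp ((((σ : ℂ) + τ * I) - ((1 / 2 : ℂ) + t * I)) * u) := by
    intro u
    have h1 := (bKD n j μ hμ (x * Real.exp (-u)) (mul_pos hx (Real.exp_pos _))).2 σ hσ
    rw [Complex.ofReal_mul (Real.exp (-u / 2)), h1]
    unfold Pool.Agent.BA.kl
    have h0 : ∀ a b c J : ℂ, a * (b * (c * J)) = c * (a * (b * J)) := by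
      intro a b c J; ring
    rw [h0, ← integral_const_mul, ← integral_const_mul]
    congr 1
    refine integral_congr_ae (Filter.Eventually.of_forall fun τ => ?_)
    show Complex.exp (-(((t * u : ℝ) : ℂ) * I)) * (((Real.exp (-u / 2) : ℝ) : ℂ) *
      ((-((σ : ℂ) + τ * I)) ^ j * GG μ ((σ : ℂ) + τ * I) *
        ((x * Real.exp (-u) : ℝ) : ℂ) ^ (-((σ : ℂ) + τ * I)))) = h τ *
        Complex.exp ((((σ : ℂ) + τ * I) - ((1 / 2 : ℂ) + t * I)) * u)
    have h2 : ∀ a b c d e : ℂ, a * (b * (c * (d * e))) = c * d * (a * b * e) := by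
      intro a b c d e; ring
    rw [hh, VCL_cpow x (-u) hx, h2, Complex.ofReal_exp, ← Complex.exp_add, ← Complex.exp_add]
    show _ = (-((σ : ℂ) + τ * I)) ^ j * GG μ ((σ : ℂ) + τ * I) * (x : ℂ) ^ (-((σ : ℂ) + τ * I)) * _
    congr 2
    push_cast
    ring
  have hprod : Integrable (Function.uncurry fun (u τ : ℝ) => h τ *
      Complex.exp ((((σ : ℂ) + τ * I) - ((1 / 2 : ℂ) + t * I)) * u))
      ((volume.restrict (Ioi (0 : ℝ))).prod volume) := by
    have h1 : IntegrableOn (fun u : ℝ => Complex.exp (((σ - 1 / 2 : ℝ) : ℂ) * u)) (Ioi 0) :=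
      integrableOn_exp_mul_complex_Ioi (by simpa using hσ2) 0
    have h2 : Integrable (fun z : ℝ × ℝ => Complex.exp (((σ - 1 / 2 : ℝ) : ℂ) * z.1) * h z.2)
        ((volume.restrict (Ioi (0 : ℝ))).prod volume) := Integrable.mul_prod h1 hint
    have h3 := h2.mul_bdd (g := fun z : ℝ × ℝ => Complex.exp ((((z.2 - t) * z.1 : ℝ) : ℂ) * I))
      (c := 1) (by
        refine Continuous.aestronglyMeasurable ?_
        fun_prop) (Filter.Eventually.of_forall fun z => by
        rw [Complex.norm_exp_ofReal_mul_I])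
    refine h3.congr (Filter.Eventually.of_forall fun z => ?_)
    show Complex.exp (((σ - 1 / 2 : ℝ) : ℂ) * z.1) * h z.2 *
      Complex.exp ((((z.2 - t) * z.1 : ℝ) : ℂ) * I) = h z.2 *
      Complex.exp ((((σ : ℂ) + z.2 * I) - ((1 / 2 : ℂ) + t * I)) * z.1)
    rw [mul_comm (Complex.exp _) (h z.2), mul_assoc, ← Complex.exp_add]
    congr 2
    push_cast
    ring
  have hinner : ∀ τ : ℝ, ∫ u in Ioi (0 : ℝ), h τ *
      Complex.exp ((((σ : ℂ) + τ * I) - ((1 / 2 : ℂ) + t * I)) * u) =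
      -(h τ * (((σ : ℂ) + τ * I) - ((1 / 2 : ℂ) + t * I))⁻¹) := by
    intro τ
    rw [integral_const_mul, integral_exp_mul_complex_Ioi (by rw [hre]; linarith)]
    simp only [Complex.ofReal_zero, mul_zero, Complex.exp_zero]
    rw [neg_div, one_div, mul_neg]
  rw [integral_congr_ae (Filter.Eventually.of_forall key), integral_const_mul,
    integral_integral_swap hprod, integral_congr_ae (Filter.Eventually.of_forall hinner),
    integral_neg, mul_neg, hh]

theorem VCL_second (bKB : Pool.Agent.BA.KB_stmt) (bKD : Pool.Agent.BA.KD_stmt) (n : ℕ)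
    (μ : Fin n → ℝ) (hμ : Par 1 μ) (t : ℝ) (z : ℂ) (hz : 1 / 2 < z.re) :
    MellinConvergent (vC μ 0 t) z ∧
    mellin (vC μ 0 t) z = GG μ z * (z - ((1 / 2 : ℂ) + t * I))⁻¹ := by
  obtain ⟨hkpos, hkm, -⟩ := bKB n μ hμ
  have hkc : ContinuousOn (kf μ 0) (Ioi 0) := fun y hy =>
    ((bKD n 0 μ hμ y hy).1.continuousAt).continuousWithinAt
  -- the function of two variables, `p = (u, x)`
  obtain ⟨F, hF⟩ : ∃ F : ℝ → ℝ → ℂ, F = fun (u x : ℝ) => (x : ℂ) ^ (z - 1) *
      (Complex.exp (((t * u : ℝ) : ℂ) * I) *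
        ((Real.exp (u / 2) * kf μ 0 (x * Real.exp u) : ℝ) : ℂ)) := ⟨_, rfl⟩
  have hmeas : AEStronglyMeasurable (Function.uncurry F)
      ((volume.restrict (Ioi (0 : ℝ))).prod (volume.restrict (Ioi (0 : ℝ)))) := by
    rw [Measure.prod_restrict]
    refine ContinuousOn.aestronglyMeasurable ?_ (measurableSet_Ioi.prod measurableSet_Ioi)
    intro p hp
    have hp2 : 0 < p.2 := hp.2
    have c1 : ContinuousWithinAt (fun p : ℝ × ℝ => (p.2 : ℂ) ^ (z - 1)) (Ioi 0 ×ˢ Ioi 0) p := by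
      refine ContinuousAt.continuousWithinAt ?_
      refine ContinuousAt.cpow (by fun_prop) continuousAt_const ?_
      exact Or.inl (by simpa using hp2)
    have c2 : ContinuousWithinAt (fun p : ℝ × ℝ => kf μ 0 (p.2 * Real.exp p.1)) (Ioi 0 ×ˢ Ioi 0)
        p := by
      refine ContinuousAt.continuousWithinAt ?_
      have h1 : ContinuousAt (kf μ 0) (p.2 * Real.exp p.1) :=
        (bKD n 0 μ hμ _ (mul_pos hp2 (Real.exp_pos _))).1.continuousAt
      exact ContinuousAt.comp (f := fun p : ℝ × ℝ => p.2 * Real.exp p.1) h1 (by fun_prop)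
    have c3 : ContinuousWithinAt (fun p : ℝ × ℝ => Complex.exp (((t * p.1 : ℝ) : ℂ) * I))
        (Ioi 0 ×ˢ Ioi 0) p := Continuous.continuousWithinAt (by fun_prop)
    have c4 : ContinuousWithinAt (fun p : ℝ × ℝ =>
        ((Real.exp (p.1 / 2) * kf μ 0 (p.2 * Real.exp p.1) : ℝ) : ℂ)) (Ioi 0 ×ˢ Ioi 0) p := by
      refine Complex.continuous_ofReal.continuousAt.comp_continuousWithinAt ?_
      exact ContinuousWithinAt.mul (Continuous.continuousWithinAt (by fun_prop)) c2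
    rw [hF]
    exact c1.mul (c3.mul c4)
  -- inner integrals
  have hconv : ∀ (w : ℂ), 0 < w.re → ∀ u : ℝ,
      MellinConvergent (fun x => (kf μ 0 (x * Real.exp u) : ℂ)) w ∧
      mellin (fun x => (kf μ 0 (x * Real.exp u) : ℂ)) w = Complex.exp (-(u * w)) * GG μ w := by
    intro w hw u
    obtain ⟨h1, h2⟩ := hkm w hw
    refine ⟨by
      have h5 := (MellinConvergent.comp_mul_left (f := fun x => (kf μ 0 x : ℂ)) (s := w) (Real.exp_pos u)).2 h1
      simpa only [mul_comm] using h5,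
      ?_⟩
    have h3 := mellin_comp_mul_right (fun x => (kf μ 0 x : ℂ)) w (Real.exp_pos u)
    have h4 : ((Real.exp u : ℝ) : ℂ) ^ (-w) = Complex.exp (-(u * w)) := by
      have := VCL_cpow 1 u one_pos (-w)
      rw [one_mul] at this
      rw [this]
      simp
    rw [h2, h4, smul_eq_mul] at h3
    exact h3
  have hzre : 0 < z.re := by linarith
  have hFint : ∀ u : ℝ, Integrable (F u) (volume.restrict (Ioi 0)) := by
    intro u
    have h1 := (hconv z hzre u).1
    have h2 : IntegrableOn (fun x : ℝ => (x : ℂ) ^ (z - 1) • (kf μ 0 (x * Real.exp u) : ℂ))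
        (Ioi 0) := h1
    have h3 := h2.const_mul (Complex.exp (((t * u : ℝ) : ℂ) * I) * ((Real.exp (u / 2) : ℝ) : ℂ))
    refine h3.congr (Filter.Eventually.of_forall fun x => ?_)
    rw [hF]
    simp only [smul_eq_mul]
    push_cast
    ring
  have hFval : ∀ u : ℝ, ∫ x in Ioi (0 : ℝ), F u x =
      GG μ z * Complex.exp (((1 / 2 : ℂ) + t * I - z) * u) := by
    intro u
    have h1 := (hconv z hzre u).2
    have h2 : ∫ x in Ioi (0 : ℝ), (x : ℂ) ^ (z - 1) • (kf μ 0 (x * Real.exp u) : ℂ) =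
        Complex.exp (-(u * z)) * GG μ z := h1
    have h3 : ∀ x : ℝ, F u x = (Complex.exp (((t * u : ℝ) : ℂ) * I) *
        ((Real.exp (u / 2) : ℝ) : ℂ)) * ((x : ℂ) ^ (z - 1) • (kf μ 0 (x * Real.exp u) : ℂ)) := by
      intro x
      rw [hF]
      simp only [smul_eq_mul]
      push_cast
      ring
    rw [integral_congr_ae (Filter.Eventually.of_forall h3), integral_const_mul, h2,
      Complex.ofReal_exp, ← mul_assoc, mul_comm _ (GG μ z), ← Complex.exp_add, ← Complex.exp_add]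
    congr 2
    push_cast
    ring
  have hnorm : ∀ u : ℝ, ∫ x in Ioi (0 : ℝ), ‖F u x‖ =
      Real.exp ((1 / 2 - z.re) * u) * (GG μ (z.re : ℂ)).re := by
    intro u
    have h1 := (hconv (z.re : ℂ) (by simpa using hzre) u).2
    have h2 : ∫ x in Ioi (0 : ℝ), (x : ℂ) ^ ((z.re : ℂ) - 1) • (kf μ 0 (x * Real.exp u) : ℂ) =
        Complex.exp (-(u * (z.re : ℂ))) * GG μ (z.re : ℂ) := h1
    have h3 : ∀ x ∈ Ioi (0 : ℝ), ((‖F u x‖ : ℝ) : ℂ) = ((Real.exp (u / 2) : ℝ) : ℂ) *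
        ((x : ℂ) ^ ((z.re : ℂ) - 1) • (kf μ 0 (x * Real.exp u) : ℂ)) := by
      intro x hx
      have hx0 : 0 < x := hx
      have hk := hkpos _ (mul_pos hx0 (Real.exp_pos u))
      rw [hF]
      simp only [norm_mul, Complex.norm_exp_ofReal_mul_I, one_mul]
      rw [Complex.norm_cpow_eq_rpow_re_of_pos hx0, Complex.norm_real,
        Real.norm_of_nonneg (mul_pos (Real.exp_pos _) hk).le, smul_eq_mul]
      have h4 : ((x ^ (z - 1).re : ℝ) : ℂ) = (x : ℂ) ^ ((z.re : ℂ) - 1) := by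
        rw [Complex.ofReal_cpow hx0.le]
        simp
      rw [Complex.ofReal_mul, Complex.ofReal_mul, h4]
      ring
    have h5 : ((∫ x in Ioi (0 : ℝ), ‖F u x‖ : ℝ) : ℂ) =
        ((Real.exp ((1 / 2 - z.re) * u) : ℝ) : ℂ) * GG μ (z.re : ℂ) := by
      rw [← integral_complex_ofReal, setIntegral_congr_fun measurableSet_Ioi h3, integral_const_mul, h2,
        ← mul_assoc, Complex.ofReal_exp, Complex.ofReal_exp, ← Complex.exp_add]
      congr 2
      push_cast
      ring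
    have h6 := congrArg Complex.re h5
    rw [Complex.ofReal_re, Complex.re_ofReal_mul] at h6
    exact h6
  have hprod : Integrable (Function.uncurry F)
      ((volume.restrict (Ioi (0 : ℝ))).prod (volume.restrict (Ioi (0 : ℝ)))) := by
    rw [integrable_prod_iff hmeas]
    refine ⟨Filter.Eventually.of_forall fun u => hFint u, ?_⟩
    have h1 : IntegrableOn (fun u : ℝ => Real.exp ((1 / 2 - z.re) * u)) (Ioi 0) :=
      integrableOn_exp_mul_Ioi (by linarith) 0
    refine (h1.mul_const ((GG μ (z.re : ℂ)).re)).congr (Filter.Eventually.of_forall fun u => ?_)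
    exact (hnorm u).symm
  have hv : ∀ x : ℝ, (x : ℂ) ^ (z - 1) • vC μ 0 t x = ∫ u in Ioi (0 : ℝ), F u x := by
    intro x
    rw [hF]
    unfold vC
    rw [smul_eq_mul, ← integral_const_mul]
  constructor
  · have h1 := hprod.integral_prod_right
    refine h1.congr (Filter.Eventually.of_forall fun x => ?_)
    exact (hv x).symm
  · unfold mellin
    rw [integral_congr_ae (Filter.Eventually.of_forall hv), ← integral_integral_swap hprod,
      integral_congr_ae (Filter.Eventually.of_forall hFval), integral_const_mul,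
      integral_exp_mul_complex_Ioi (by simp; linarith)]
    simp only [Complex.ofReal_zero, mul_zero, Complex.exp_zero]
    rw [neg_div, one_div, ← inv_neg]
    congr 2
    ring

/-- **VCL** -/
theorem VCL (bKB : Pool.Agent.BA.KB_stmt) (bKD : Pool.Agent.BA.KD_stmt)
    (bGI : Pool.Agent.BA.GI_stmt) : VCL_stmt := by
  intro n j μ hμ
  exact ⟨fun t x σ hx hσ hσ2 => VCL_first bKD bGI n j μ hμ t x σ hx hσ hσ2,
    fun t z hz => VCL_second bKB bKD n μ hμ t z hz⟩

end Pool.Agent.TA
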